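import Pool.Agent.Helper61.FN.Goals

/-!
# Project FN, packet FN-AAL
-/

set_option autoImplicit false

namespace Pool.Agent.Helper80.FN

open Pool.Agent.Helper61.FN

section

variable {F k : Type} [Field F] [LinearOrder F] [IsStrictOrderedRing F] [Field k] [Algebra F k]
  {n : Fin 4 → F} {lam : F} {v : Fin 6 → ℤ} {M : ℤ} {ξ : Fin 6 → k}

theorem lineF (hP : G_APM) (hL : G_ALN) (h : NA n lam v M ξ) (hv : ∀ e, 0 < v e)
    (σ : Equiv.Perm (Fin 4)) (a : Fin 6 → Fin 6) (ha : ∀ i, pe σ i = a i) :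
    v (a 1) = v (a 0) + v (a 3) → v (a 4) = v (a 3) + v (a 5) →
      v (a 2) = v (a 0) + v (a 3) + v (a 5) → False := by
  intro h1 h2 h3
  simp only [← ha] at h1 h2 h3
  exact hL F k _ lam _ M _ (hP F k n lam v M ξ σ h) (hv _) (hv _) (hv _) h1 h2 h3

theorem cycF (hP : G_APM) (hC : G_ACY) (h : NA n lam v M ξ) (hv : ∀ e, 0 < v e)
    (σ : Equiv.Perm (Fin 4)) (a : Fin 6 → Fin 6) (ha : ∀ i, pe σ i = a i) :
    v (a 5) = v (a 0) → v (a 2) = v (a 3) → v (a 1) = v (a 0) + v (a 3) →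
      v (a 4) = v (a 0) + v (a 3) → False := by
  intro h1 h2 h3 h4
  simp only [← ha] at h1 h2 h3 h4
  exact hC F k _ lam _ M _ (hP F k n lam v M ξ σ h) (hv _) (hv _) h1 h2 h3 h4

end

theorem goalAAL (hP : G_APM) (hL : G_ALN) (hD : G_ADG) (hC : G_ACY) : G_AAL := by
  intro F k _ _ _ _ _ n lam v M ξ h hv
  have hdg := hD F k n lam v M ξ h hv
  have p0 := hv 0
  have p1 := hv 1
  have p2 := hv 2
  have p3 := hv 3
  have p4 := hv 4
  have p5 := hv 5
  have L0123 : v 1 = v 0 + v 3 → v 4 = v 3 + v 5 →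
      v 2 = v 0 + v 3 + v 5 → False :=
    lineF hP hL h hv ⟨![0, 1, 2, 3], ![0, 1, 2, 3], by decide, by decide⟩
      ![0, 1, 2, 3, 4, 5] (by decide)
  have L0132 : v 2 = v 0 + v 4 → v 3 = v 4 + v 5 →
      v 1 = v 0 + v 4 + v 5 → False :=
    lineF hP hL h hv ⟨![0, 1, 3, 2], ![0, 1, 3, 2], by decide, by decide⟩
      ![0, 2, 1, 4, 3, 5] (by decide)
  have L0213 : v 0 = v 1 + v 3 → v 5 = v 3 + v 4 →
      v 2 = v 1 + v 3 + v 4 → False :=
    lineF hP hL h hv ⟨![0, 2, 1, 3], ![0, 2, 1, 3], by decide, by decide⟩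
      ![1, 0, 2, 3, 5, 4] (by decide)
  have L0231 : v 2 = v 1 + v 5 → v 3 = v 5 + v 4 →
      v 0 = v 1 + v 5 + v 4 → False :=
    lineF hP hL h hv ⟨![0, 2, 3, 1], ![0, 3, 1, 2], by decide, by decide⟩
      ![1, 2, 0, 5, 3, 4] (by decide)
  have L0312 : v 0 = v 2 + v 4 → v 5 = v 4 + v 3 →
      v 1 = v 2 + v 4 + v 3 → False :=
    lineF hP hL h hv ⟨![0, 3, 1, 2], ![0, 2, 3, 1], by decide, by decide⟩
      ![2, 0, 1, 4, 5, 3] (by decide)
  have L0321 : v 1 = v 2 + v 5 → v 4 = v 5 + v 3 →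
      v 0 = v 2 + v 5 + v 3 → False :=
    lineF hP hL h hv ⟨![0, 3, 2, 1], ![0, 3, 2, 1], by decide, by decide⟩
      ![2, 1, 0, 5, 4, 3] (by decide)
  have L1023 : v 3 = v 0 + v 1 → v 2 = v 1 + v 5 →
      v 4 = v 0 + v 1 + v 5 → False :=
    lineF hP hL h hv ⟨![1, 0, 2, 3], ![1, 0, 2, 3], by decide, by decide⟩
      ![0, 3, 4, 1, 2, 5] (by decide)
  have L1032 : v 4 = v 0 + v 2 → v 1 = v 2 + v 5 →
      v 3 = v 0 + v 2 + v 5 → False :=
    lineF hP hL h hv ⟨![1, 0, 3, 2], ![1, 0, 3, 2], by decide, by decide⟩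
      ![0, 4, 3, 2, 1, 5] (by decide)
  have L1203 : v 0 = v 3 + v 1 → v 5 = v 1 + v 2 →
      v 4 = v 3 + v 1 + v 2 → False :=
    lineF hP hL h hv ⟨![1, 2, 0, 3], ![2, 0, 1, 3], by decide, by decide⟩
      ![3, 0, 4, 1, 5, 2] (by decide)
  have L1302 : v 0 = v 4 + v 2 → v 5 = v 2 + v 1 →
      v 3 = v 4 + v 2 + v 1 → False :=
    lineF hP hL h hv ⟨![1, 3, 0, 2], ![2, 0, 3, 1], by decide, by decide⟩
      ![4, 0, 3, 2, 5, 1] (by decide)
  have L2013 : v 3 = v 1 + v 0 → v 2 = v 0 + v 4 →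
      v 5 = v 1 + v 0 + v 4 → False :=
    lineF hP hL h hv ⟨![2, 0, 1, 3], ![1, 2, 0, 3], by decide, by decide⟩
      ![1, 3, 5, 0, 2, 4] (by decide)
  have L2103 : v 1 = v 3 + v 0 → v 4 = v 0 + v 2 →
      v 5 = v 3 + v 0 + v 2 → False :=
    lineF hP hL h hv ⟨![2, 1, 0, 3], ![2, 1, 0, 3], by decide, by decide⟩
      ![3, 1, 5, 0, 4, 2] (by decide)
  have C0123 : v 5 = v 0 → v 2 = v 3 → v 1 = v 0 + v 3 →
      v 4 = v 0 + v 3 → False :=
    cycF hP hC h hv ⟨![0, 1, 2, 3], ![0, 1, 2, 3], by decide, by decide⟩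
      ![0, 1, 2, 3, 4, 5] (by decide)
  have C0132 : v 5 = v 0 → v 1 = v 4 → v 2 = v 0 + v 4 →
      v 3 = v 0 + v 4 → False :=
    cycF hP hC h hv ⟨![0, 1, 3, 2], ![0, 1, 3, 2], by decide, by decide⟩
      ![0, 2, 1, 4, 3, 5] (by decide)
  have C0213 : v 4 = v 1 → v 2 = v 3 → v 0 = v 1 + v 3 →
      v 5 = v 1 + v 3 → False :=
    cycF hP hC h hv ⟨![0, 2, 1, 3], ![0, 2, 1, 3], by decide, by decide⟩
      ![1, 0, 2, 3, 5, 4] (by decide)
  clear hP hL hD hC h hv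
  obtain ⟨h1, h2, h3, h4⟩ := hdg
  rcases h1 with h1 | h1 | h1 <;> rcases h2 with h2 | h2 | h2 <;> rcases h3 with h3 | h3 | h3 <;>
    rcases h4 with h4 | h4 | h4 <;>
    first
    | omega
    | exact L0123 (by omega) (by omega) (by omega)
    | exact L0132 (by omega) (by omega) (by omega)
    | exact L0213 (by omega) (by omega) (by omega)
    | exact L0231 (by omega) (by omega) (by omega)
    | exact L0312 (by omega) (by omega) (by omega)
    | exact L0321 (by omega) (by omega) (by omega)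
    | exact L1023 (by omega) (by omega) (by omega)
    | exact L1032 (by omega) (by omega) (by omega)
    | exact L1203 (by omega) (by omega) (by omega)
    | exact L1302 (by omega) (by omega) (by omega)
    | exact L2013 (by omega) (by omega) (by omega)
    | exact L2103 (by omega) (by omega) (by omega)
    | exact C0123 (by omega) (by omega) (by omega) (by omega)
    | exact C0132 (by omega) (by omega) (by omega) (by omega)
    | exact C0213 (by omega) (by omega) (by omega) (by omega)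

end Pool.Agent.Helper80.FN
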