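import Pool.Agent.Helper61.FN.Goals

/-!
# Project FN, packet FN-ACL
-/

set_option autoImplicit false

namespace Pool.Agent.Helper80.FN

open Pool.Agent.Helper61.FN

section

variable {F k : Type} [Field F] [LinearOrder F] [IsStrictOrderedRing F] [Field k] [Algebra F k]
  {n : Fin 4 → F} {lam : F} {v : Fin 6 → ℤ} {M : ℤ} {ξ : Fin 6 → k}

theorem allZero (h : NA n lam v M ξ) (h0 : v 0 = 0) (h1 : v 1 = 0) (h2 : v 2 = 0)
    (h3 : v 3 = 0) (h4 : v 4 = 0) (h5 : v 5 = 0) : False := by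
  have n0 := h.pos 0
  have n1 := h.pos 1
  have n2 := h.pos 2
  have n3 := h.pos 3
  have hs := h.sm
  rw [h0, h1, h2, h3, h4, h5] at hs
  simp only [Int.cast_zero, mul_zero, zero_add] at hs
  have hM0 : (0 : F) < M := by exact_mod_cast h.nrm.M_pos
  have h6 : (0 : F) < n 0 * n 1 + n 0 * n 2 + n 0 * n 3 + n 1 * n 2 + n 1 * n 3 + n 2 * n 3 := by
    positivity
  have h7 := mul_pos hM0 h6
  rw [← hs] at h7
  exact lt_irrefl _ h7

theorem zeroEdge (hP : G_APM) (hB3 : G_AB3) (hB2 : G_AB2) (h : NA n lam v M ξ) (h0 : v 0 = 0) :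
    False := by
  obtain ⟨t0, ⟨t1, t2, t3⟩, ⟨t4, t5, t6⟩, ⟨t7, t8, t9⟩, t10, t11, t12⟩ := h.tri
  have p1 := t0 1
  have p2 := t0 2
  have p5 := t0 5
  have h3 : v 3 = v 1 := by omega
  have h4 : v 4 = v 2 := by omega
  rcases p1.lt_or_eq with q1 | q1
  · rcases p2.lt_or_eq with q2 | q2
    · rcases p5.lt_or_eq with q5 | q5
      · exact hB2 F k n lam v M ξ h h0 h3 h4 q1 q2 q5
      · exact hB3 F k n lam v M ξ h h0 q5.symm (by omega) h3 (by omega) q1
    · have h' := hP F k n lam v M ξ ⟨![0, 1, 3, 2], ![0, 1, 3, 2], by decide, by decide⟩ h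
      have e : ∀ i, pe ⟨![0, 1, 3, 2], ![0, 1, 3, 2], by decide, by decide⟩ i =
        (![0, 2, 1, 4, 3, 5] : Fin 6 → Fin 6) i := by decide
      simp only [e] at h'
      refine goalAB1 h' ?_ ?_ ?_ ?_ ?_ ?_
      · exact h0
      · exact q2.symm
      · show v 4 = 0
        omega
      · show v 3 = v 1
        omega
      · show v 5 = v 1
        omega
      · exact q1
  · rcases p2.lt_or_eq with q2 | q2
    · exact goalAB1 h h0 q1.symm (by omega) h4 (by omega) q2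
    · exact allZero h h0 q1.symm q2.symm (by omega) (by omega) (by omega)

theorem zeroAny (hP : G_APM) (hB3 : G_AB3) (hB2 : G_AB2) (h : NA n lam v M ξ)
    (σ : Equiv.Perm (Fin 4)) (h0 : v (pe σ 0) = 0) : False :=
  zeroEdge hP hB3 hB2 (hP F k n lam v M ξ σ h) h0

end

theorem goalACL (hP : G_APM) (hB3 : G_AB3) (hB2 : G_AB2) (hA : G_AAL) : G_ACL := by
  intro F k _ _ _ _ _ n lam v M ξ h
  by_cases hz : ∀ e, 0 < v e
  · exact hA F k n lam v M ξ h hz
  · push Not at hz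
    obtain ⟨e, he⟩ := hz
    have h0 : v e = 0 := le_antisymm he (h.tri.1 e)
    have key : ∀ e : Fin 6, ∃ σ : Equiv.Perm (Fin 4), pe σ 0 = e := by decide
    obtain ⟨σ, hσ⟩ := key e
    exact zeroAny hP hB3 hB2 h σ (by rw [hσ]; exact h0)

end Pool.Agent.Helper80.FN
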